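import Pool.Agent.W492.KC.Defs

/-!
# The symmetrizer is idempotent up to the factorial
-/

set_option autoImplicit false
set_option linter.unusedSectionVars false

open CategoryTheory Limits MonoidalCategory

namespace Pool.Agent.W191.KCSym

open Pool.Agent.W492.MT (tpow)
open Pool.Agent.W492.KC (swp gins gsym)

universe v u

/-! ### The algebra -/

theorem core1 {A : Type v} [Ring A] (t σ J : A) (s2 : σ * σ = 1)
    (b : σ * t * σ = t * σ * t) (cJ : σ * J = J * σ) :
    σ * ((1 + t * J) * (1 + σ * (1 + t * J))) - (1 + t * J) * (1 + σ * (1 + t * J)) =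
      t * σ * ((t - 1) * (J * (1 + t * J))) := by
  linear_combination (norm := noncomm_ring) s2 * (1 + t * J) - σ * t * cJ + b * J -
    σ * t * cJ * (t * J) + b * (J * t * J) + t * cJ + t * cJ * (t * J)

theorem core2 {A : Type v} [Ring A] (t σ J : A) (s2 : σ * σ = 1)
    (b : σ * t * σ = t * σ * t) (cJ : σ * J = J * σ) :
    -(σ * ((1 - t * J) * (1 - σ * (1 - t * J)))) - (1 - t * J) * (1 - σ * (1 - t * J)) =
      t * σ * ((-t - 1) * (J * (1 - t * J))) := by
  linear_combination (norm := noncomm_ring) s2 * (1 - t * J) + σ * t * cJ - b * J -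
    σ * t * cJ * (t * J) + b * (J * t * J) + t * cJ - t * cJ * (t * J)

theorem core {A : Type v} [Ring A] (e : ℤ) (he : e * e = 1) (t σ J K L M : A) (s2 : σ * σ = 1)
    (b : σ * t * σ = t * σ * t) (cJ : σ * J = J * σ) (cK : σ * K = K * σ) (k1 : K = M * L)
    (k2 : K = L * J) (cL1 : σ * L = L * σ) (cL2 : t * L = L * t)
    (ih : t * (K * (1 + e • (t * J))) = e • (K * (1 + e • (t * J)))) :
    σ * (K * (1 + e • (t * J)) * (1 + e • (σ * (1 + e • (t * J))))) =
      e • (K * (1 + e • (t * J)) * (1 + e • (σ * (1 + e • (t * J))))) := by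
  have h : e = 1 ∨ e = -1 := by
    rcases Int.isUnit_iff.1 (IsUnit.of_mul_eq_one e he) with h | h
    · exact Or.inl h
    · exact Or.inr h
  have z1 : t * σ * L = L * (t * σ) := by
    rw [mul_assoc, cL1, ← mul_assoc, cL2, mul_assoc]
  rcases h with rfl | rfl
  · simp only [one_smul] at ih ⊢
    have c := core1 t σ J s2 b cJ
    have z : K * (t * σ * ((t - 1) * (J * (1 + t * J)))) = 0 := by
      calc K * (t * σ * ((t - 1) * (J * (1 + t * J))))
          = M * (L * (t * σ) * ((t - 1) * (J * (1 + t * J)))) := by rw [k1]; noncomm_ring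
        _ = M * (t * σ * (t * L - L) * (J * (1 + t * J))) := by
            rw [← z1, mul_assoc (t * σ) L]
            have : L * ((t - 1) * (J * (1 + t * J))) = (t * L - L) * (J * (1 + t * J)) := by
              rw [cL2]; noncomm_ring
            rw [this]
            noncomm_ring
        _ = M * (t * σ * (t * (K * (1 + t * J)) - K * (1 + t * J))) := by rw [k2]; noncomm_ring
        _ = 0 := by rw [ih]; noncomm_ring
    have z2 : σ * (K * (1 + t * J) * (1 + σ * (1 + t * J))) - K * (1 + t * J) * (1 + σ * (1 + t * J)) = 0 := by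
      rw [← z, ← c]
      linear_combination (norm := noncomm_ring) cK * ((1 + t * J) * (1 + σ * (1 + t * J)))
    exact sub_eq_zero.1 z2
  · simp only [neg_smul, one_smul] at ih ⊢
    simp only [← sub_eq_add_neg] at ih ⊢
    have c := core2 t σ J s2 b cJ
    have z : K * (t * σ * ((-t - 1) * (J * (1 - t * J)))) = 0 := by
      calc K * (t * σ * ((-t - 1) * (J * (1 - t * J))))
          = M * (L * (t * σ) * ((-t - 1) * (J * (1 - t * J)))) := by rw [k1]; noncomm_ring
        _ = M * (t * σ * (-(t * L) - L) * (J * (1 - t * J))) := by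
            rw [← z1, mul_assoc (t * σ) L]
            have : L * ((-t - 1) * (J * (1 - t * J))) = (-(t * L) - L) * (J * (1 - t * J)) := by
              rw [cL2]; noncomm_ring
            rw [this]
            noncomm_ring
        _ = M * (t * σ * (-(t * (K * (1 - t * J))) - K * (1 - t * J))) := by rw [k2]; noncomm_ring
        _ = 0 := by rw [ih]; noncomm_ring
    have z2 : -(σ * (K * (1 - t * J) * (1 - σ * (1 - t * J)))) -
        K * (1 - t * J) * (1 - σ * (1 - t * J)) = 0 := by
      rw [← z, ← c]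
      linear_combination (norm := noncomm_ring) -(cK * ((1 - t * J) * (1 - σ * (1 - t * J))))
    have z3 := sub_eq_zero.1 z2
    exact neg_eq_iff_eq_neg.1 z3

section
variable {R : ℕ → Type v} [∀ n, Ring (R n)] (W : ∀ n, R n →+* R (n + 1)) (s : ∀ n, R (n + 2))
  (e : ℤ)

/-- the sum of the permutations moving the first factor -/
def ag : ∀ n, R (n + 1)
  | 0 => 1
  | n + 1 => 1 + e • (s n * W (n + 1) (ag n))

/-- the mirror image of `ag` -/
def ag' : ∀ n, R (n + 1)
  | 0 => 1
  | n + 1 => 1 + e • (W (n + 1) (ag' n) * s n)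

/-- the symmetrizer -/
def aG : ∀ n, R n
  | 0 => 1
  | n + 1 => W n (aG n) * ag W s e n

theorem mirror (hc : ∀ n (x : R n), s n * W (n + 1) (W n x) = W (n + 1) (W n x) * s n) (n : ℕ) :
    aG W s e (n + 1) = ag' W s e n * W n (aG W s e n) := by
  induction n with
  | zero => simp [aG, ag, ag']
  | succ n ih =>
    have h1 : aG W s e (n + 2) = W (n + 1) (aG W s e (n + 1)) * ag W s e (n + 1) := rfl
    have h2 : ag W s e (n + 1) = 1 + e • (s n * W (n + 1) (ag W s e n)) := rfl
    have h3 : ag' W s e (n + 1) = 1 + e • (W (n + 1) (ag' W s e n) * s n) := rfl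
    have h4 : aG W s e (n + 1) = W n (aG W s e n) * ag W s e n := rfl
    have h5 : W (n + 1) (aG W s e (n + 1)) =
        W (n + 1) (ag' W s e n) * W (n + 1) (W n (aG W s e n)) := by
      rw [← map_mul, ← ih]
    have h6 : W (n + 1) (aG W s e (n + 1)) =
        W (n + 1) (W n (aG W s e n)) * W (n + 1) (ag W s e n) := by
      rw [← map_mul, ← h4]
    have h7 : W (n + 1) (aG W s e (n + 1)) * (s n * W (n + 1) (ag W s e n)) =
        W (n + 1) (ag' W s e n) * s n * W (n + 1) (aG W s e (n + 1)) := by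
      calc W (n + 1) (aG W s e (n + 1)) * (s n * W (n + 1) (ag W s e n))
          = W (n + 1) (ag' W s e n) * (W (n + 1) (W n (aG W s e n)) * s n) *
              W (n + 1) (ag W s e n) := by
            rw [h5]; simp only [mul_assoc]
        _ = W (n + 1) (ag' W s e n) * s n * (W (n + 1) (W n (aG W s e n)) *
              W (n + 1) (ag W s e n)) := by
            rw [← hc]; simp only [mul_assoc]
        _ = _ := by rw [← h6]
    rw [h1, h2, h3, mul_add, add_mul, mul_one, one_mul, mul_smul_comm, smul_mul_assoc, h7]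

theorem s_aG (he : e * e = 1) (hs : ∀ n, s n * s n = 1)
    (hc : ∀ n (x : R n), s n * W (n + 1) (W n x) = W (n + 1) (W n x) * s n)
    (hb : ∀ n, s (n + 1) * W (n + 2) (s n) * s (n + 1) =
      W (n + 2) (s n) * s (n + 1) * W (n + 2) (s n)) (n : ℕ) :
    s n * aG W s e (n + 2) = e • aG W s e (n + 2) := by
  induction n with
  | zero =>
    have h : aG W s e 2 = 1 + e • s 0 := by
      simp [aG, ag]
    have h' : s 0 * (1 + e • s 0) = e • (1 + e • s 0) := by
      rw [mul_add, mul_one, mul_smul_comm, hs, smul_add, smul_smul, he, one_smul]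
      exact add_comm _ _
    show s 0 * aG W s e 2 = e • aG W s e 2
    rw [h]
    exact h'
  | succ n ih =>
    have g1 : aG W s e (n + 2) = W (n + 1) (aG W s e (n + 1)) *
        (1 + e • (s n * W (n + 1) (ag W s e n))) := rfl
    have g2 : aG W s e (n + 3) = W (n + 2) (aG W s e (n + 2)) *
        (1 + e • (s (n + 1) * W (n + 2) (1 + e • (s n * W (n + 1) (ag W s e n))))) := rfl
    have g3 : W (n + 2) (1 + e • (s n * W (n + 1) (ag W s e n))) =
        1 + e • (W (n + 2) (s n) * W (n + 2) (W (n + 1) (ag W s e n))) := by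
      simp only [map_add, map_one, map_zsmul, map_mul]
    have g4 : W (n + 2) (aG W s e (n + 2)) = W (n + 2) (W (n + 1) (aG W s e (n + 1))) *
        (1 + e • (W (n + 2) (s n) * W (n + 2) (W (n + 1) (ag W s e n)))) := by
      rw [g1, map_mul, g3]
    have ih2 := congrArg (W (n + 2)) ih
    rw [map_mul, map_zsmul, g4] at ih2
    have cL2 : W (n + 2) (s n) * W (n + 2) (W (n + 1) (W n (aG W s e n))) =
        W (n + 2) (W (n + 1) (W n (aG W s e n))) * W (n + 2) (s n) := by
      rw [← map_mul, hc, map_mul]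
    have k1 : W (n + 2) (W (n + 1) (aG W s e (n + 1))) =
        W (n + 2) (W (n + 1) (ag' W s e n)) * W (n + 2) (W (n + 1) (W n (aG W s e n))) := by
      rw [mirror W s e hc, map_mul, map_mul]
    have k2 : W (n + 2) (W (n + 1) (aG W s e (n + 1))) =
        W (n + 2) (W (n + 1) (W n (aG W s e n))) * W (n + 2) (W (n + 1) (ag W s e n)) := by
      rw [← map_mul, ← map_mul]
      rfl
    have key := core e he (W (n + 2) (s n)) (s (n + 1)) (W (n + 2) (W (n + 1) (ag W s e n)))
      (W (n + 2) (W (n + 1) (aG W s e (n + 1)))) (W (n + 2) (W (n + 1) (W n (aG W s e n))))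
      (W (n + 2) (W (n + 1) (ag' W s e n))) (hs _) (hb n) (hc (n + 1) _) (hc (n + 1) _) k1 k2
      (hc (n + 1) _) cL2 ih2
    show s (n + 1) * aG W s e (n + 3) = e • aG W s e (n + 3)
    rw [g2, g4, g3]
    exact key

theorem ag_aG (he : e * e = 1) (hs : ∀ n, s n * s n = 1)
    (hc : ∀ n (x : R n), s n * W (n + 1) (W n x) = W (n + 1) (W n x) * s n)
    (hb : ∀ n, s (n + 1) * W (n + 2) (s n) * s (n + 1) =
      W (n + 2) (s n) * s (n + 1) * W (n + 2) (s n)) (n : ℕ) :
    ag W s e n * aG W s e (n + 1) = (n + 1) • aG W s e (n + 1) := by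
  induction n with
  | zero => simp [ag]
  | succ n ih =>
    have h2 : ag W s e (n + 1) = 1 + e • (s n * W (n + 1) (ag W s e n)) := rfl
    have h1 : aG W s e (n + 2) = W (n + 1) (aG W s e (n + 1)) * ag W s e (n + 1) := rfl
    have h3 : W (n + 1) (ag W s e n) * aG W s e (n + 2) = (n + 1) • aG W s e (n + 2) := by
      rw [h1, ← mul_assoc, ← map_mul, ih, map_nsmul, smul_mul_assoc]
    calc ag W s e (n + 1) * aG W s e (n + 2)
        = aG W s e (n + 2) + e • (s n * (W (n + 1) (ag W s e n) * aG W s e (n + 2))) := by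
          rw [h2, add_mul, one_mul, smul_mul_assoc, mul_assoc]
      _ = aG W s e (n + 2) + (n + 1) • aG W s e (n + 2) := by
          rw [h3, mul_smul_comm, s_aG W s e he hs hc hb, smul_comm e (n + 1), smul_smul e e, he,
            one_smul]
      _ = (n + 1 + 1) • aG W s e (n + 2) := by
          rw [add_smul (n + 1) 1, one_smul]
          exact add_comm _ _

theorem aG_aG (he : e * e = 1) (hs : ∀ n, s n * s n = 1)
    (hc : ∀ n (x : R n), s n * W (n + 1) (W n x) = W (n + 1) (W n x) * s n)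
    (hb : ∀ n, s (n + 1) * W (n + 2) (s n) * s (n + 1) =
      W (n + 2) (s n) * s (n + 1) * W (n + 2) (s n)) (n : ℕ) :
    aG W s e n * aG W s e n = n.factorial • aG W s e n := by
  induction n with
  | zero => simp [aG]
  | succ n ih =>
    have h1 : aG W s e (n + 1) = W n (aG W s e n) * ag W s e n := rfl
    calc aG W s e (n + 1) * aG W s e (n + 1)
        = W n (aG W s e n) * (ag W s e n * aG W s e (n + 1)) := by
          rw [← mul_assoc, ← h1]
      _ = (n + 1) • (W n (aG W s e n) * aG W s e (n + 1)) := by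
          rw [ag_aG W s e he hs hc hb, mul_smul_comm]
      _ = (n + 1) • (W n (aG W s e n * aG W s e n) * ag W s e n) := by
          rw [h1, map_mul, mul_assoc]
      _ = (n + 1).factorial • aG W s e (n + 1) := by
          rw [ih, map_nsmul, smul_mul_assoc, ← h1, smul_smul, Nat.factorial_succ]

end

/-! ### The categorical input -/

section
variable {T : Type u} [Category.{v} T] [MonoidalCategory T] [SymmetricCategory T]

theorem swp_swp (X Y : T) : swp X Y ≫ swp X Y = 𝟙 _ := by
  simp only [swp, Category.assoc, Iso.hom_inv_id_assoc]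
  rw [← comp_whiskerRight_assoc, SymmetricCategory.symmetry]
  simp

theorem swp_nat (X : T) {Y Z : T} (f : Y ⟶ Z) :
    swp X Y ≫ (X ◁ (X ◁ f)) = (X ◁ (X ◁ f)) ≫ swp X Z := by
  simp only [swp, Category.assoc]
  rw [← associator_naturality_right, ← whisker_exchange_assoc,
    associator_inv_naturality_right_assoc]

theorem swp_assoc (X Y : T) : swp X (X ⊗ Y) =
    (X ◁ (α_ X X Y).inv ≫ (α_ X (X ⊗ X) Y).inv) ≫ (swp X X) ▷ Y ≫
      ((α_ X (X ⊗ X) Y).hom ≫ X ◁ (α_ X X Y).hom) := by
  simp only [swp]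
  monoidal

theorem whisker_swp (X Y : T) : X ◁ swp X Y =
    (X ◁ (α_ X X Y).inv ≫ (α_ X (X ⊗ X) Y).inv) ≫ (X ◁ (β_ X X).hom) ▷ Y ≫
      ((α_ X (X ⊗ X) Y).hom ≫ X ◁ (α_ X X Y).hom) := by
  simp only [swp]
  monoidal

theorem swp_braid (X Y : T) : swp X (X ⊗ Y) ≫ (X ◁ swp X Y) ≫ swp X (X ⊗ Y) =
    (X ◁ swp X Y) ≫ swp X (X ⊗ Y) ≫ (X ◁ swp X Y) := by
  have h : swp X X ≫ (X ◁ (β_ X X).hom) ≫ swp X X =
      (X ◁ (β_ X X).hom) ≫ swp X X ≫ (X ◁ (β_ X X).hom) := by
    have := BraidedCategory.yang_baxter X X X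
    simpa only [swp, Category.assoc] using this
  have h' : (swp X X) ▷ Y ≫ (X ◁ (β_ X X).hom) ▷ Y ≫ (swp X X) ▷ Y =
      (X ◁ (β_ X X).hom) ▷ Y ≫ (swp X X) ▷ Y ≫ (X ◁ (β_ X X).hom) ▷ Y := by
    simp only [← comp_whiskerRight, h]
  have hφ : ((α_ X (X ⊗ X) Y).hom ≫ X ◁ (α_ X X Y).hom) ≫
      (X ◁ (α_ X X Y).inv ≫ (α_ X (X ⊗ X) Y).inv) = 𝟙 _ := by
    simp
  rw [swp_assoc, whisker_swp]
  generalize ((α_ X (X ⊗ X) Y).hom ≫ X ◁ (α_ X X Y).hom) = ψ at hφ ⊢
  generalize (X ◁ (α_ X X Y).inv ≫ (α_ X (X ⊗ X) Y).inv) = φ at hφ ⊢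
  simp only [Category.assoc, reassoc_of% hφ, reassoc_of% h']

variable [Preadditive T] [MonoidalPreadditive T]

/-- the ring of endomorphisms, in the order of composition -/
abbrev RR (X : T) (n : ℕ) : Type v := (End (tpow X n))ᵐᵒᵖ

/-- whiskering on the left -/
def WW (X : T) (n : ℕ) : RR X n →+* RR X (n + 1) where
  toFun f := MulOpposite.op (X ◁ f.unop : X ⊗ tpow X n ⟶ X ⊗ tpow X n)
  map_one' := by
    apply MulOpposite.unop_injective
    exact MonoidalCategory.whiskerLeft_id _ _
  map_mul' f g := by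
    apply MulOpposite.unop_injective
    exact MonoidalCategory.whiskerLeft_comp _ _ _
  map_zero' := by
    apply MulOpposite.unop_injective
    exact MonoidalPreadditive.whiskerLeft_zero
  map_add' f g := by
    apply MulOpposite.unop_injective
    exact MonoidalPreadditive.whiskerLeft_add _ _

/-- the transposition -/
def ss (X : T) (n : ℕ) : RR X (n + 2) := MulOpposite.op (swp X (tpow X n))

theorem ag_eq (eps : ℤ) (X : T) (n : ℕ) :
    (ag (WW X) (ss X) eps n).unop = gins eps X n := by
  induction n with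
  | zero => rfl
  | succ n ih =>
    show (1 + eps • (ss X n * WW X (n + 1) (ag (WW X) (ss X) eps n)) : RR X (n + 2)).unop = _
    rw [MulOpposite.unop_add, MulOpposite.unop_smul, MulOpposite.unop_mul]
    show _ = 𝟙 _ + eps • (swp X (tpow X n) ≫ (X ◁ gins eps X n))
    rw [← ih]
    rfl

theorem aG_eq (eps : ℤ) (X : T) (n : ℕ) :
    (aG (WW X) (ss X) eps n).unop = gsym eps X n := by
  induction n with
  | zero => rfl
  | succ n ih =>
    show (WW X n (aG (WW X) (ss X) eps n) * ag (WW X) (ss X) eps n : RR X (n + 1)).unop = _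
    show _ = (X ◁ gsym eps X n) ≫ gins eps X n
    rw [MulOpposite.unop_mul, ag_eq, ← ih]
    rfl

theorem hs (X : T) (n : ℕ) : ss X n * ss X n = 1 := by
  apply MulOpposite.unop_injective
  exact swp_swp X (tpow X n)

theorem hc (X : T) (n : ℕ) (x : RR X n) :
    ss X n * WW X (n + 1) (WW X n x) = WW X (n + 1) (WW X n x) * ss X n := by
  apply MulOpposite.unop_injective
  exact swp_nat X x.unop

theorem hb (X : T) (n : ℕ) : ss X (n + 1) * WW X (n + 2) (ss X n) * ss X (n + 1) =
    WW X (n + 2) (ss X n) * ss X (n + 1) * WW X (n + 2) (ss X n) := by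
  apply MulOpposite.unop_injective
  have := swp_braid X (tpow X n)
  show (swp X (X ⊗ tpow X n) ≫ (X ◁ swp X (tpow X n))) ≫ swp X (X ⊗ tpow X n) =
    ((X ◁ swp X (tpow X n)) ≫ swp X (X ⊗ tpow X n)) ≫ (X ◁ swp X (tpow X n))
  rw [Category.assoc, Category.assoc]
  exact this

theorem swp_gsym (eps : ℤ) (h : eps * eps = 1) (X : T) (n : ℕ) :
    swp X (tpow X n) ≫ gsym eps X (n + 2) = eps • gsym eps X (n + 2) := by
  have := congrArg MulOpposite.unop (s_aG (WW X) (ss X) eps h (hs X) (hc X) (hb X) n)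
  rw [MulOpposite.unop_mul, MulOpposite.unop_smul, aG_eq] at this
  exact this

theorem gins_gsym (eps : ℤ) (h : eps * eps = 1) (X : T) (n : ℕ) :
    gins eps X n ≫ gsym eps X (n + 1) = (n + 1 : ℕ) • gsym eps X (n + 1) := by
  have := congrArg MulOpposite.unop (ag_aG (WW X) (ss X) eps h (hs X) (hc X) (hb X) n)
  rw [MulOpposite.unop_mul, MulOpposite.unop_smul, aG_eq, ag_eq] at this
  exact this

theorem gsym_gsym (eps : ℤ) (h : eps * eps = 1) (X : T) (n : ℕ) :
    gsym eps X n ≫ gsym eps X n = (n.factorial) • gsym eps X n := by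
  have := congrArg MulOpposite.unop (aG_aG (WW X) (ss X) eps h (hs X) (hc X) (hb X) n)
  rw [MulOpposite.unop_mul, MulOpposite.unop_smul, aG_eq] at this
  exact this

end

end Pool.Agent.W191.KCSym
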